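import Pool.Agent.Lib_helper48.UniformSDefs
import Pool.Agent.Lib_helper48.UniformSMain

/-!
# Equivalent norms on `c₀` with uniform property (S)

Full (positive) answer to Q1: `c₀` admits an equivalent norm with uniform property (S).
-/

set_option autoImplicit false

open scoped ZeroAtInfty

namespace Pool.Agent.Results.MP_c793c5_an.EquivalentNormC0

/-- **Full answer to Q1.**  The real space `c₀` of null sequences with its sup norm
(`C₀(ℕ, ℝ)` in Mathlib) has an equivalent norm `N` with uniform property (S). -/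
theorem result :
    ∃ N : Seminorm ℝ C₀(ℕ, ℝ),
      (∃ α β : ℝ, 0 < α ∧ 0 < β ∧ ∀ x : C₀(ℕ, ℝ), α * ‖x‖ ≤ N x ∧ N x ≤ β * ‖x‖) ∧
      PoolUS.UniformPropertyS N := by
  refine ⟨PoolUS.newNorm, ?_, PoolUS.newNorm_uniform⟩
  obtain ⟨α, hα, hαle⟩ := PoolUS.T_ge
  refine ⟨α, 2, hα, two_pos, fun x => ⟨?_, PoolUS.newNorm_le x⟩⟩
  have h : ‖x‖ ≤ PoolUS.newNorm x / α := by
    apply PoolUS.c0_norm_le (div_nonneg (apply_nonneg _ _) hα.le)
    intro i
    rw [le_div_iff₀ hα, mul_comm]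
    exact hαle (fun i => x i) ‖x‖ (PoolUS.c0_bound x) i
  rw [le_div_iff₀ hα] at h
  linarith

end Pool.Agent.Results.MP_c793c5_an.EquivalentNormC0
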